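import Pool.Agent.H17.CX.Targets

set_option autoImplicit false

open MvPolynomial SC Pool.Agent.H27.LV
open Pool.Agent.H92.SF Pool.Agent.H3.SF Pool.Agent.H17.SD Pool.Agent.H17.SFG Pool.Agent.H17.CX

namespace Pool.Agent.H45.CNX

theorem pf_KRU (hREG : T_REG) : T_KRU := by
  classical
  intro k F σ _ _ _ _ _ _ X dd m G g Q hS hC t a ha hall
  obtain ⟨s, hs, hsQ⟩ := hC.pt
  have hsY : ∀ p : MvPolynomial σ k, aeval X p = 0 → eval s p = 0 := fun p hp =>
    hsQ p (hC.ker p hp)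
  have hsG : eval s G = 0 := hsQ G hC.mem
  have htn := smo_tng X G hS.smo s hs hsY hsG
  obtain ⟨hN, L0, L1, cX, cG, ε, X1, Gs, dX, dG, hL0, hL1, hv0, hv1, -, hε, hX1, hGs, hF, -, -⟩ :=
    i_OSF k F σ X s dd G m ⟨fun f d hf => hS.cone.hmg f hf d, hsY⟩ hs hS.li hS.one hS.hG hsG htn
  have hl : aeval X L0 ≠ 0 := fun h => hv0 (hsY _ h)
  set l : F := aeval X L0 with hldef
  have hz : aeval X a / l ^ t ∈ Pool.Agent.H84.SF.Os X s := by
    refine ⟨t, a, L0 ^ t, ⟨ha, by simpa using hL0.pow t, ?_⟩, ?_⟩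
    · rw [map_pow, ← hldef, div_mul_cancel₀ _ (pow_ne_zero _ hl)]
    · rw [map_pow]
      exact pow_ne_zero _ hv0
  have hGs' : (Gs : F) = aeval X G / l ^ m := by
    rw [eq_div_iff (pow_ne_zero _ hl)]
    exact hGs
  have hεG : ε Gs = 0 := (hF.max Gs).2 ⟨0, 1, by simp⟩
  have htop : Ideal.span {Gs} ≠ (⊤ : Ideal (Pool.Agent.H84.SF.Os X s)) := by
    intro h
    obtain ⟨c, hc⟩ := Ideal.mem_span_singleton'.1 ((Ideal.eq_top_iff_one _).1 h)
    have h1 := congrArg ε hc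
    rw [map_mul, hεG, mul_zero, map_one] at h1
    exact zero_ne_one h1
  have hmem : ∀ j : ℕ, (⟨_, hz⟩ : Pool.Agent.H84.SF.Os X s) ∈ Ideal.span {Gs} ^ j := by
    intro j
    obtain ⟨p, b, hR⟩ := hall j
    obtain ⟨d, e, p', b', hp', hb', hde, hsp, he⟩ :=
      hREG k F σ X dd m G g Q hS hC t j a p b ha hR s hs hsQ
    have hp0 : aeval X p' ≠ 0 := fun h => hsp (hsY _ h)
    rw [Ideal.span_singleton_pow, Ideal.mem_span_singleton']
    have hden : aeval X p' * l ^ t ≠ 0 := mul_ne_zero hp0 (pow_ne_zero _ hl)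
    have hy : aeval X b' * l ^ (j * m) / (aeval X p' * l ^ t) ∈ Pool.Agent.H84.SF.Os X s := by
      refine ⟨d + t, b' * L0 ^ (j * m), p' * L0 ^ t, ⟨?_, ?_, ?_⟩, ?_⟩
      · rw [hde]
        exact hb'.mul (by simpa using hL0.pow (j * m))
      · exact hp'.mul (by simpa using hL0.pow t)
      · rw [map_mul, map_mul, map_pow, map_pow, ← hldef, div_mul_cancel₀ _ hden]
      · rw [map_mul, map_pow]
        exact mul_ne_zero hsp (pow_ne_zero _ hv0)
    refine ⟨⟨_, hy⟩, Subtype.ext ?_⟩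
    change aeval X b' * l ^ (j * m) / (aeval X p' * l ^ t) * (Gs : F) ^ j = aeval X a / l ^ t
    rw [hGs']
    rw [map_mul, map_mul, map_pow] at he
    have h1 : l ^ t ≠ 0 := pow_ne_zero _ hl
    have h2 : l ^ m ≠ 0 := pow_ne_zero _ hl
    rw [div_mul_eq_mul_div, div_eq_div_iff hden h1, div_pow, ← pow_mul, mul_comm m j]
    have h3 : aeval X b' * l ^ (j * m) * (aeval X G ^ j / l ^ (j * m)) =
        aeval X b' * aeval X G ^ j := by
      have h4 : l ^ (j * m) ≠ 0 := pow_ne_zero _ hl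
      field_simp
    rw [h3, ← he]
    ring
  have hNd : IsNoetherianRing (Pool.Agent.H84.SF.Os X s) := hN
  have hkr := Ideal.iInf_pow_eq_bot_of_isDomain (R := Pool.Agent.H84.SF.Os X s)
    (Ideal.span {Gs}) htop
  have hx0 : (⟨_, hz⟩ : Pool.Agent.H84.SF.Os X s) = 0 := by
    rw [← Ideal.mem_bot, ← hkr, Ideal.mem_iInf]
    exact hmem
  have h5 : aeval X a / l ^ t = 0 := congrArg Subtype.val hx0
  rcases div_eq_zero_iff.1 h5 with h6 | h6
  · exact h6
  · exact absurd h6 (pow_ne_zero _ hl)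

end Pool.Agent.H45.CNX
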